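import Pool.Agent.U918.LP.Fam

/-!
# Simultaneous primes `m² + b² + c² + 1` and `m² + d² + e² + 3` with arbitrary weights on the `m`

The question asks for simultaneous primes `m² + 1` and `m² + 3`. Let `k₁, k₂ ≤ B X²` be any integers `≥ 0`, for example
`k₁ = 1`, `k₂ = 3`, and let `w` be ANY bounded real weight on the integers `m ≤ X`, for example the indicator of an
arbitrary set. For all but a share `log ^ (-U) X` of the quadruples `(b₁, c₁, b₂, c₂)` of integers in `[1, X]`, the sum of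
`w m` over the `m` for which both `m² + b₁² + c₁² + k₁` and `m² + b₂² + c₂² + k₂` are prime is the sum of
`w m ∏ 1 / (V z log (m² + b_i² + c_i² + k_i))` over the `m` for which both numbers are free of primes `≤ z`, up to an
error `X / log ^ D X`; here `z` is a power of `log X`, `V z = ∏_{p ≤ z} (1 - 1/p)`, and this holds simultaneously for
all initial intervals `m ≤ y`, `y ≤ X`, and all residue classes of `m` to all moduli up to `log ^ K X`.
-/

set_option autoImplicit false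

open Finset

namespace Pool.Agent.Results.MP_2dba45_nt.AddedSquares

/-- the product of `1 - 1/p` over the primes `p ≤ z` -/
noncomputable def V (z : ℕ) : ℝ := ∏ p ∈ (Icc 1 z).filter Nat.Prime, (1 - 1 / (p : ℝ))

/-- the two shifts `b₁² + c₁² + k₁` and `b₂² + c₂² + k₂` -/
def shifts (t : Fin 2 → ℕ × ℕ) (k : Fin 2 → ℕ) (i : Fin 2) : ℕ := (t i).1 ^ 2 + (t i).2 ^ 2 + k i

open Classical in
/-- the sum of `w m` over the `m`, `1 ≤ m ≤ y`, `m ≡ a mod q`, for which both `m² + h 0` and `m² + h 1` are prime -/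
noncomputable def primeSum (w : ℕ → ℝ) (h : Fin 2 → ℕ) (q a y : ℕ) : ℝ :=
  ∑ m ∈ (Icc 1 y).filter (fun m => m ≡ a [MOD q] ∧ ∀ i, (m ^ 2 + h i).Prime), w m

open Classical in
/-- the sum of `w m / ((V z · log (m² + h 0)) (V z · log (m² + h 1)))` over the `m`, `1 ≤ m ≤ y`, `m ≡ a mod q`, for which
no prime `p ≤ z` divides `m² + h 0` or `m² + h 1` -/
noncomputable def modelSum (z : ℕ) (w : ℕ → ℝ) (h : Fin 2 → ℕ) (q a y : ℕ) : ℝ :=
  ∑ m ∈ (Icc 1 y).filter (fun m => m ≡ a [MOD q] ∧ ∀ i, ∀ p : ℕ, p.Prime → p ≤ z → ¬ p ∣ m ^ 2 + h i),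
    w m * ∏ i, (V z * Real.log ((m ^ 2 + h i : ℕ) : ℝ))⁻¹

open Classical in
/-- **The theorem.** For all `B`, `U`, `D`, `K` there is `B₀` such that for every `E`, every large `X`, every integer `z`
with `log ^ B₀ X ≤ z ≤ log ^ E X`, EVERY weight `w` with `|w m| ≤ 1` and all integers `0 ≤ k₁, k₂ ≤ B X²` (for example
`1` and `3`): for all but at most `X⁴ / log ^ U X` of the quadruples `t = (b₁, c₁, b₂, c₂)` of integers in `[1, X]`, one
has with the shifts `h = (b₁² + c₁² + k₁, b₂² + c₂² + k₂)` for all `y ≤ X`, all moduli `1 ≤ q ≤ log ^ K X` and all classes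
`a` that `primeSum w h q a y` and `modelSum z w h q a y` differ by at most `X / log ^ D X`. -/
theorem result (B U D K : ℕ) :
    ∃ B₀ : ℕ, ∀ E : ℕ, ∃ X₀ : ℕ, ∀ X : ℕ, X₀ ≤ X → ∀ z : ℕ, Real.log X ^ B₀ ≤ z → (z : ℝ) ≤ Real.log X ^ E →
    ∀ w : ℕ → ℝ, (∀ m, |w m| ≤ 1) → ∀ k : Fin 2 → ℕ, (∀ i, k i ≤ B * X ^ 2) →
    (((Fintype.piFinset (fun _ : Fin 2 => Icc 1 X ×ˢ Icc 1 X)).filter (fun t =>
      ∃ y ≤ X, ∃ q a : ℕ, 1 ≤ q ∧ (q : ℝ) ≤ Real.log X ^ K ∧
        (X : ℝ) / Real.log X ^ D <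
          |primeSum w (shifts t k) q a y - modelSum z w (shifts t k) q a y|)).card : ℝ) ≤
      (X : ℝ) ^ 4 / Real.log X ^ U := by
  have hdeg : (Polynomial.X ^ 2 : Polynomial ℤ).natDegree = 2 := by compute_degree!
  exact Pool.Agent.U918.LP.fam 2 (Polynomial.X ^ 2 : Polynomial ℤ) hdeg
    (by rw [Polynomial.leadingCoeff, hdeg]; simp) (fun m => m ^ 2) (fun m => by simp)
    (fun u v huv => Nat.pow_le_pow_left huv 2) Pool.Agent.U918.LP.sqs
    (fun t h1 _ => by
      unfold Pool.Agent.U918.LP.sqs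
      have : 1 ≤ t.1 ^ 2 := Nat.one_le_pow _ _ (by omega)
      omega)
    (fun x t h1 h2 => by
      unfold Pool.Agent.U918.LP.sqs
      have h3 : t.1 ^ 2 ≤ x ^ 2 := Nat.pow_le_pow_left h1 2
      have h4 : t.2 ^ 2 ≤ x ^ 2 := Nat.pow_le_pow_left h2 2
      omega)
    Pool.Agent.U918.LP.En_sqs B U D K

end Pool.Agent.Results.MP_2dba45_nt.AddedSquares
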