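import Pool.Agent.U909.UL.PFin
import Pool.Agent.N646.TT.Fin

set_option autoImplicit false

/-!
# Pairs of primes `⌊α n ^ c⌋ + j`, `⌊α n ^ c⌋ + j + d` with small differences `d`

Let `c > 1` be real (for the question, `c = 2`, `α = 1`, `j = 1`, `d = 2`). There is a set `E` of Hausdorff dimension
less than `1` such that for all real `α > 0` outside `E`, all integers `j`, all `b ≥ 1` and all `ε, λ > 0`: at all scales
`H` between `λ log N` and any power of `log N`, at least `(1/3 - ε) H` of the `k ≤ H` are such that the number of the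
`n ≤ N` for which `⌊α n ^ c⌋ + j` and `⌊α n ^ c⌋ + j + 2 b k` are simultaneously prime is at least
`κ 𝔖(2 b k) N / (log N)²`, the order of magnitude expected by Hardy and Littlewood.

Proof: (1) for every family of sets `A_{j,h}` of natural numbers, and all `α` outside a set of dimension less than `1`, the
number of the `n ≤ N` with `⌊α n ^ c⌋ ∈ A_{j,h}` differs from the weighted number of the `t ≤ α N ^ c` in `A_{j,h}`
(weight `α ^ (-1/c) t ^ (1/c - 1) / c`) by less than `N ^ (1 - κ)`, for each `j` uniformly in `h ≤ (log N) ^ p`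
(`Pool.Agent.U909.UL.uniform`; the large sieve argument is in the library, `Pool.Agent.Y854`); (2) this is applied to the
sets of the `t` with `t + j` and `t + j + h` both prime, and combined with the library theorem for all integers,
`Pool.Agent.N646.TT.fin`.
-/

namespace Pool.Agent.Results.MP_2dba45_nt.PairsAlongRealMonomials

open Finset Filter

/-- the number of the `1 ≤ n ≤ N` for which `⌊α n ^ c⌋ + j` and `⌊α n ^ c⌋ + j + d` are both prime -/
noncomputable def pairs (α c : ℝ) (j : ℤ) (d N : ℕ) : ℕ :=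
  ((Icc 1 N).filter fun n : ℕ => (⌊α * (n : ℝ) ^ c⌋ + j).toNat.Prime ∧ (⌊α * (n : ℝ) ^ c⌋ + j + d).toNat.Prime).card

/-- the product of `(p - 1) / (p - 2)` over the odd primes `p` dividing `d`: for even `d`, the Hardy-Littlewood constant
of the difference `d` divided by that of the difference `2` -/
noncomputable def S (d : ℕ) : ℝ :=
  ∏ p ∈ d.primeFactors.filter (fun p : ℕ => 2 < p), (((p : ℝ) - 1) / ((p : ℝ) - 2))

open Classical in
theorem result (c : ℝ) (hc : 1 < c) : ∃ E : Set ℝ, dimH E < 1 ∧ ∀ α : ℝ, 0 < α → α ∉ E → ∀ (j : ℤ) (b : ℕ), 1 ≤ b →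
    ∀ ε lam : ℝ, 0 < ε → 0 < lam → ∃ κ : ℝ, 0 < κ ∧ ∀ A : ℕ, ∃ N0 : ℕ, ∀ N : ℕ, N0 ≤ N → ∀ H : ℕ,
      lam * Real.log N ≤ H → (H : ℝ) ≤ Real.log N ^ A →
        (1 / 3 - ε) * (H : ℝ) ≤ (((Icc 1 H).filter (fun k : ℕ =>
          κ * (S (2 * b * k) * N / Real.log N ^ 2) ≤ (pairs α c j (2 * b * k) N : ℝ))).card : ℝ) := by
  obtain ⟨κ, hκ, hκ1, hU⟩ := Pool.Agent.U909.UL.uniform c hc
  obtain ⟨E, hE, hlaw⟩ := hU Pool.Agent.U909.UL.patt
  refine ⟨E, hE, fun α hα hαE j b hb ε lam hε hlam => ?_⟩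
  have hc0 : 0 < c := by linarith
  obtain ⟨κ', hκ', hfin⟩ := Pool.Agent.N646.TT.fin 1 b hb ε (lam / (2 * c)) hε (by positivity)
  exact ⟨κ' / (32 * c ^ 3), by positivity, fun A =>
    Pool.Agent.U909.UL.passage hα hc hκ hκ1 hκ' j b ε lam hlam (hlaw α hα hαE j) hfin A⟩

end Pool.Agent.Results.MP_2dba45_nt.PairsAlongRealMonomials
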