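import Pool.Agent.U832.RH.GeE

/-!
# The `m` for which `m ^ 2 + 1` and `m ^ 2 + 3` are both almost prime, in a Poisson environment

The `m` for which neither `m ^ 2 + 1` nor `m ^ 2 + 3` has a prime factor `≤ x ^ (1 / r)` form a Poisson process in
every interval of length `≥ x ^ θ`: the numbers of such `m` in disjoint windows, seen from an arbitrary integer, from
an arbitrary such `m` or from an arbitrary `m` for which `(m ^ 2 + 1) (m ^ 2 + 3)` has at most `R` prime factors, all
`> x ^ w`, are independent Poisson variables; here `R` and `w` do not depend on the windows.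
-/

set_option autoImplicit false

namespace Pool.Agent.Results.MP_2dba45_nt.PoissonValues

open Finset Filter Pool.Agent.U832.RG Pool.Agent.U832.RH

/-- The product of the numbers `m ^ 2 + 1` and `m ^ 2 + 3`. -/
def values (m : ℕ) : ℕ := (m ^ 2 + 1) * (m ^ 2 + 3)

section aux

open Polynomial
open Pool.Agent.W123.RU.Poly (Sys)

/-- the system -/
noncomputable def F : Fin 2 → ℤ[X] := ![X ^ 2 + C 1, X ^ 2 + C 3]

lemma deg2 (c : ℤ) : (X ^ 2 + C c : ℤ[X]).natDegree = 2 := natDegree_X_pow_add_C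

lemma mon2 (c : ℤ) : (X ^ 2 + C c : ℤ[X]).Monic := monic_X_pow_add_C c two_ne_zero

lemma irr2 (c : ℤ) (hc : 0 < c) : Irreducible (X ^ 2 + C c : ℤ[X]) := by
  apply irr_of_no_root _ (mon2 c) (deg2 c).ge (by rw [deg2]; norm_num)
  intro z hz
  simp only [eval_add, eval_pow, eval_X, eval_C] at hz
  nlinarith [sq_nonneg z]

lemma sys : Sys F where
  irr i := by
    fin_cases i
    · exact irr2 1 one_pos
    · exact irr2 3 three_pos
  deg i := by
    fin_cases i
    · exact lt_of_lt_of_eq two_pos (deg2 1).symm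
    · exact lt_of_lt_of_eq two_pos (deg2 3).symm
  lead i := by
    fin_cases i
    · exact lt_of_lt_of_eq one_pos (mon2 1).symm
    · exact lt_of_lt_of_eq one_pos (mon2 3).symm
  inj i j h := by
    have h1 := congrArg (eval 0) h
    fin_cases i <;> fin_cases j <;> simp [F] at h1 ⊢
  adm p hp := by
    by_cases h3 : p = 3
    · refine ⟨1, fun i hi => ?_⟩
      subst h3
      fin_cases i <;> simp [F] at hi <;> norm_num at hi
    · refine ⟨0, fun i hi => ?_⟩
      have h4 : (p : ℤ) ∣ 3 := by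
        fin_cases i
        · simp only [F, Fin.zero_eta, Matrix.cons_val_zero, eval_add, eval_pow, eval_X, eval_C] at hi
          have h5 : (p : ℤ) ∣ 1 := by simpa using hi
          exact h5.trans (one_dvd 3)
        · simpa [F] using hi
      have h5 : p ∣ 3 := by exact_mod_cast h4
      exact h3 ((Nat.prime_dvd_prime_iff_eq hp Nat.prime_three).1 h5)

lemma noshift : NoShift F := by
  intro i j t ht h
  have hm : ∀ i, (F i).Monic := by
    intro i
    fin_cases i
    · exact mon2 1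
    · exact mon2 3
  have h1 := eq_of_monic_of_associated (hm i) ((hm j).comp_X_add_C _) h
  have h2 := congrArg (eval 0) h1
  have h3 := congrArg (eval 1) h1
  have ht' : (1 : ℤ) ≤ t := by exact_mod_cast ht
  rw [eval_comp] at h2 h3
  fin_cases i <;> fin_cases j <;>
    (simp [F] at h2 h3; nlinarith)

lemma g_eq (n : ℕ) : (values n : ℤ) = ∏ i, (F i).eval (n : ℤ) := by
  rw [Fin.prod_univ_two]
  simp [F, values]

lemma g_le : ∀ᶠ x : ℕ in atTop, ∀ n ≤ x, values n ≤ x ^ 5 := by
  filter_upwards [eventually_ge_atTop 3] with x hx n hn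
  unfold values
  have h1 : n ^ 2 ≤ x ^ 2 := Nat.pow_le_pow_left hn 2
  have h2 : 9 ≤ x ^ 2 := by nlinarith
  have h3 : (x ^ 2 + 1) * (x ^ 2 + 3) ≤ 3 * (x ^ 2 * x ^ 2) := by
    obtain ⟨a, ha⟩ : ∃ a, a = x ^ 2 := ⟨_, rfl⟩
    rw [← ha] at h2 ⊢
    nlinarith
  calc (n ^ 2 + 1) * (n ^ 2 + 3) ≤ (x ^ 2 + 1) * (x ^ 2 + 3) := Nat.mul_le_mul (by omega) (by omega)
    _ ≤ 3 * (x ^ 2 * x ^ 2) := h3
    _ ≤ x * (x ^ 2 * x ^ 2) := Nat.mul_le_mul_right _ hx
    _ = x ^ 5 := by ring

end aux

/-- Let `θ, δ > 0`. There are `w > 0` and `R`, such that for all `J`, `L`, `x₀`, all `ε > 0` and all large `r`: for all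
large `x`, with `y = ⌊x ^ (1 / r)⌋`, `z = ⌊x ^ w⌋`, ALL intervals `(Z, Z + Y]` with `Y ≥ x ^ θ` and all `T` with
`T V ≤ x₀`, `V = V values y`:
(1) the set `Rough values y` satisfies `PoissonLaw`: for all disjoint windows `(a j, b j] ⊆ (0, T]`, `j < J`, all
`s ≤ T` outside of them and all `k j ≤ L`, the number of the `n` in `(Z, Z + Y]` with `n + s ∈ Rough values y` and
exactly `k j` elements of `Rough values y` in `(n + a j, n + b j]` for all `j` is `Y V Π` up to `ε Y V`, where `Π` is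
the product of the probabilities that a Poisson variable of mean `(b j - a j) V` has the value `k j`; and the same
without the condition on `n + s`, with `Y` instead of `Y V`;
(2) if `Z + Y + T ≤ x`, the number of the `n` in `(Z, Z + Y]` for which `n + s` is in `Almost values R z` (the product
of `(n + s) ^ 2 + 1` and `(n + s) ^ 2 + 3` has at most `R` prime factors, all `> z`), with the same windows, is
`Y W Π` up to `(δ Π + ε) Y W`, `W = V values z`. -/
theorem result (θ δ : ℝ) (hθ : 0 < θ) (hδ : 0 < δ) :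
    ∃ w : ℝ, 0 < w ∧ ∃ R : ℕ, ∀ (J L : ℕ) (x₀ ε : ℝ), 0 < ε → ∃ r₀ : ℕ, ∀ r : ℕ, r₀ ≤ r → ∀ᶠ x : ℕ in atTop,
      ∀ y z : ℕ, y = ⌊(x : ℝ) ^ (1 / (r : ℝ))⌋₊ → z = ⌊(x : ℝ) ^ w⌋₊ →
      ∀ Z Y T : ℕ, (x : ℝ) ^ θ ≤ Y → T * V values y ≤ x₀ →
        PoissonLaw (Rough values y) (V values y) J L ε Z Y T ∧
        (Z + Y + T ≤ x →
          CentreLaw (Almost values R z) (Rough values y) (V values z) (V values y) J L δ ε Z Y T) := by
  obtain ⟨w, hw, hG⟩ := fixedG F sys (by norm_num) noshift values g_eq 5 g_le θ hθ δ hδ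
  refine ⟨w, hw, ⌊((5 : ℕ) : ℝ) / w⌋₊, ?_⟩
  intro J L x₀ ε hε
  obtain ⟨r₁, h⟩ := (fixed_main F sys (by norm_num) noshift values g_eq θ hθ).1 J L x₀ ε hε
  obtain ⟨r₂, h'⟩ := hG J L x₀ ε hε
  refine ⟨max r₁ r₂, fun r hr => ?_⟩
  filter_upwards [h r ((le_max_left _ _).trans hr), h' r ((le_max_right _ _).trans hr)] with x hx hx'
  intro y z hy hz Z Y T hY hT
  exact ⟨hx y hy Z Y T hY hT, fun hZ => hx' y z hy hz Z Y T hY hT hZ⟩

end Pool.Agent.Results.MP_2dba45_nt.PoissonValues
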